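import Pool.Agent.helper64.QF.Spec

set_option autoImplicit false

namespace Pool.Agent.helper64.QF

open Metric MeasureTheory Set Filter Topology
open Pool.Agent.helper37.PR

section KEXaux

variable {F : Type*} [NormedAddCommGroup F] [InnerProductSpace ℂ F] [CompleteSpace F]
variable {A : F →L[ℂ] F} {h : F → F}

omit [CompleteSpace F] in
theorem KEX_good {b c : F} (hb : ‖b‖ ≤ 1) (hs1 : ‖(inner ℂ b c : ℂ)‖ < 1)
    (hbc : ‖b‖ ^ 2 + ‖c‖ ^ 2 ≤ 1 + ‖(inner ℂ b c : ℂ)‖ ^ 2) :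
    GoodCurve b c (inner ℂ b c) 1 := by
  intro ζ hζ
  set s : ℂ := inner ℂ b c with hs
  have hne : 1 + s * ζ ≠ 0 := by
    intro h0
    have h1 : s * ζ = -1 := by linear_combination h0
    have h2 : ‖s * ζ‖ = 1 := by rw [h1, norm_neg, norm_one]
    rw [norm_mul] at h2
    have h3 : ‖s‖ * ‖ζ‖ ≤ 1 * ‖ζ‖ := mul_le_mul_of_nonneg_right hs1.le (norm_nonneg ζ)
    linarith
  refine ⟨hne, ?_⟩
  have hle : ‖b + ζ • c‖ ≤ ‖1 + s * ζ‖ := by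
    rw [← sq_le_sq₀ (norm_nonneg _) (norm_nonneg _), @norm_add_sq ℂ, inner_smul_right, ← hs,
      norm_smul]
    have e1 : ‖1 + s * ζ‖ ^ 2 = 1 + 2 * (s * ζ).re + ‖s‖ ^ 2 * ‖ζ‖ ^ 2 := by
      rw [← Complex.normSq_eq_norm_sq, Complex.normSq_apply, ← Complex.normSq_eq_norm_sq,
        ← Complex.normSq_eq_norm_sq, Complex.normSq_apply, Complex.normSq_apply]
      simp only [Complex.add_re, Complex.one_re, Complex.mul_re, Complex.add_im, Complex.one_im,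
        Complex.mul_im]
      ring
    rw [e1, mul_comm ζ s]
    have hz1 : ‖ζ‖ ^ 2 ≤ 1 := pow_le_one₀ (norm_nonneg ζ) hζ.le
    have hz0 : 0 ≤ ‖ζ‖ ^ 2 := sq_nonneg _
    have hb2 : ‖b‖ ^ 2 ≤ 1 := pow_le_one₀ (norm_nonneg b) hb
    have e2 : RCLike.re (s * ζ) = (s * ζ).re := rfl
    rw [e2]
    have k1 : 0 ≤ (1 - ‖ζ‖ ^ 2) * (1 - ‖b‖ ^ 2) := mul_nonneg (by linarith) (by linarith)
    have k2 : 0 ≤ ‖ζ‖ ^ 2 * (1 + ‖s‖ ^ 2 - ‖b‖ ^ 2 - ‖c‖ ^ 2) :=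
      mul_nonneg hz0 (by linarith)
    nlinarith [k1, k2]
  have h3 : ‖bet b c s ζ‖ ≤ 1 := by
    rw [bet, norm_smul, norm_inv, inv_mul_le_iff₀ (norm_pos_iff.2 hne), mul_one]
    exact hle
  rw [norm_smul]
  calc ‖ζ‖ * ‖bet b c s ζ‖ ≤ ‖ζ‖ * 1 := mul_le_mul_of_nonneg_left h3 (norm_nonneg ζ)
    _ = ‖ζ‖ := mul_one _
    _ < 1 := hζ

theorem KEX_rho (hc : IsCara A h) {b c : F} (hb : ‖b‖ ≤ 1) (hs1 : ‖(inner ℂ b c : ℂ)‖ < 1)
    (hbc : ‖b‖ ^ 2 + ‖c‖ ^ 2 ≤ 1 + ‖(inner ℂ b c : ℂ)‖ ^ 2) {ρ : ℝ} (h0 : 0 < ρ)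
    (h1 : ρ < 1) : 0 ≤ ρ ^ 2 * (inner ℂ b (A b)).re +
      ρ ^ 4 * ((inner ℂ c (A c)).re + (inner ℂ c (P2 h b)).re) := by
  have hg := KEX_good hb hs1 hbc
  have h2 := re_deriv_nonneg h0 h1 (Mfun_diff hc one_pos hg ρ)
    (fun ζ hζ => Mfun_re hc h0 h1 hg hζ) (Mfun_hasDerivAt hc b c (inner ℂ b c) ρ)
  have e1 : (ρ : ℂ) ^ 2 * inner ℂ b (A b) +
      (ρ : ℂ) ^ 4 * inner ℂ c (A (c - (inner ℂ b c : ℂ) • b) + P2 h b) +
        (inner ℂ b c : ℂ) * ((ρ : ℂ) ^ 4 * inner ℂ c (A b)) =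
      ((ρ ^ 2 : ℝ) : ℂ) * inner ℂ b (A b) +
        ((ρ ^ 4 : ℝ) : ℂ) * (inner ℂ c (A c) + inner ℂ c (P2 h b)) := by
    rw [map_sub, map_smul, inner_add_right, inner_sub_right, inner_smul_right]
    push_cast
    ring
  rw [e1, Complex.add_re, Complex.re_ofReal_mul, Complex.re_ofReal_mul, Complex.add_re] at h2
  exact h2

theorem KEX_re (hc : IsCara A h) {b c : F} (hb : ‖b‖ ≤ 1) (hs1 : ‖(inner ℂ b c : ℂ)‖ < 1)
    (hbc : ‖b‖ ^ 2 + ‖c‖ ^ 2 ≤ 1 + ‖(inner ℂ b c : ℂ)‖ ^ 2) :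
    0 ≤ (inner ℂ b (A b)).re + (inner ℂ c (A c)).re + (inner ℂ c (P2 h b)).re := by
  set x := (inner ℂ b (A b)).re
  set y := (inner ℂ c (A c)).re + (inner ℂ c (P2 h b)).re
  have h1 : Tendsto (fun ρ : ℝ => ρ ^ 2 * x + ρ ^ 4 * y) (𝓝[<] 1) (𝓝 (1 ^ 2 * x + 1 ^ 4 * y)) := by
    apply Tendsto.mono_left _ nhdsWithin_le_nhds
    apply Continuous.tendsto
    fun_prop
  have h2 := ge_of_tendsto h1 (b := 0) (by
    have h3 : Ioo (0 : ℝ) 1 ∈ 𝓝[<] (1 : ℝ) := Ioo_mem_nhdsLT (by norm_num)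
    filter_upwards [h3] with ρ hρ
    exact KEX_rho hc hb hs1 hbc hρ.1 hρ.2)
  have h4 : (1 : ℝ) ^ 2 * x + 1 ^ 4 * y = x + y := by ring
  rw [h4] at h2
  have h5 : x + y = x + (inner ℂ c (A c)).re + (inner ℂ c (P2 h b)).re := by
    simp only [y]; ring
  linarith

theorem KEX_key (hc : IsCara A h) {b c : F} (hb : ‖b‖ ≤ 1) (hs1 : ‖(inner ℂ b c : ℂ)‖ < 1)
    (hbc : ‖b‖ ^ 2 + ‖c‖ ^ 2 ≤ 1 + ‖(inner ℂ b c : ℂ)‖ ^ 2) :
    ‖(inner ℂ c (P2 h b) : ℂ)‖ ≤ (inner ℂ b (A b)).re + (inner ℂ c (A c)).re := by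
  set w : ℂ := inner ℂ c (P2 h b) with hw
  have hphase : ∀ u : ℂ, ‖u‖ = 1 → 0 ≤ (inner ℂ b (A b)).re + (inner ℂ c (A c)).re +
      ((starRingEnd ℂ) u * w).re := by
    intro u hu
    have e0 : ‖(inner ℂ b (u • c) : ℂ)‖ = ‖(inner ℂ b c : ℂ)‖ := by
      rw [inner_smul_right, norm_mul, hu, one_mul]
    have h1 := KEX_re hc (b := b) (c := u • c) hb (by rw [e0]; exact hs1)
      (by rw [norm_smul, hu, one_mul, e0]; exact hbc)
    have e1 : (inner ℂ (u • c) (A (u • c)) : ℂ) = inner ℂ c (A c) := by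
      rw [map_smul, inner_smul_left, inner_smul_right, ← mul_assoc, mul_comm ((starRingEnd ℂ) u),
        Complex.mul_conj, Complex.normSq_eq_norm_sq, hu]
      simp
    rw [e1, inner_smul_left] at h1
    exact h1
  by_cases hw0 : w = 0
  · have h1 := hphase 1 norm_one
    rw [hw0] at h1 ⊢
    simpa using h1
  · have hwn : (‖w‖ : ℂ) ≠ 0 := by
      exact_mod_cast (norm_pos_iff.2 hw0).ne'
    have h1 := hphase (-w / ‖w‖) (by
      rw [norm_div, norm_neg, Complex.norm_real, norm_norm, div_self (norm_pos_iff.2 hw0).ne'])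
    have e1 : (starRingEnd ℂ) (-w / ‖w‖) * w = ((-‖w‖ : ℝ) : ℂ) := by
      rw [map_div₀, map_neg, Complex.conj_ofReal]
      have h2 : (starRingEnd ℂ) w * w = (‖w‖ : ℂ) ^ 2 := by
        rw [mul_comm, Complex.mul_conj, Complex.normSq_eq_norm_sq]; push_cast; ring
      have h3 : -(starRingEnd ℂ) w / (‖w‖ : ℂ) * w = -((starRingEnd ℂ) w * w) / (‖w‖ : ℂ) := by ring
      rw [h3, h2]
      push_cast
      field_simp
    rw [e1, Complex.ofReal_re] at h1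
    linarith

end KEXaux

theorem KEX : KEX_stmt := by
  intro n A h hc b c hb hcn hbc
  have hb2 : ‖b‖ ^ 2 ≤ 1 := pow_le_one₀ (norm_nonneg b) hb
  have hs0 : ‖(inner ℂ b c : ℂ)‖ ≤ 1 := by
    have h1 := norm_inner_le_norm (𝕜 := ℂ) b c
    have h2 : ‖b‖ * ‖c‖ ≤ 1 * 1 := mul_le_mul hb hcn (norm_nonneg c) zero_le_one
    linarith
  set w : ℝ := ‖(inner ℂ c (P2 h b) : ℂ)‖ with hw
  set q : ℝ := qA A b + qA A c with hq
  have hw0 : 0 ≤ w := norm_nonneg _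
  have hstep : ∀ r : ℝ, 0 < r → r < 1 → r * w ≤ q := by
    intro r h0 h1
    have hr2 : r ^ 2 < 1 := pow_lt_one₀ h0.le h1 (by norm_num)
    have hr2p : 0 < r ^ 2 := by positivity
    have en : ∀ v : E n, ‖((r : ℝ) : ℂ) • v‖ = r * ‖v‖ := by
      intro v
      rw [norm_smul, Complex.norm_real, Real.norm_eq_abs, abs_of_pos h0]
    have ei : (inner ℂ (((r : ℝ) : ℂ) • b) (((r : ℝ) : ℂ) • c) : ℂ) = ((r ^ 2 : ℝ) : ℂ) * inner ℂ b c := by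
      rw [inner_smul_left, inner_smul_right, Complex.conj_ofReal]
      push_cast
      ring
    have ein : ‖(inner ℂ (((r : ℝ) : ℂ) • b) (((r : ℝ) : ℂ) • c) : ℂ)‖ = r ^ 2 * ‖(inner ℂ b c : ℂ)‖ := by
      rw [ei, norm_mul, Complex.norm_real, Real.norm_eq_abs, abs_of_pos hr2p]
    have k := KEX_key hc (b := ((r : ℝ) : ℂ) • b) (c := ((r : ℝ) : ℂ) • c)
      (by
        rw [en]
        have : r * ‖b‖ ≤ 1 * 1 := mul_le_mul h1.le hb (norm_nonneg b) zero_le_one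
        linarith)
      (by
        rw [ein]
        have : r ^ 2 * ‖(inner ℂ b c : ℂ)‖ ≤ r ^ 2 * 1 := mul_le_mul_of_nonneg_left hs0 hr2p.le
        linarith)
      (by
        rw [en, en, ein]
        have hx : 0 ≤ ‖(inner ℂ b c : ℂ)‖ ^ 2 := sq_nonneg _
        have hx1 : ‖(inner ℂ b c : ℂ)‖ ^ 2 ≤ 1 := pow_le_one₀ (norm_nonneg _) hs0
        have k1 : 0 ≤ (1 - r ^ 2) * (1 - r ^ 2 * ‖(inner ℂ b c : ℂ)‖ ^ 2) := by
          apply mul_nonneg (by linarith)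
          have : r ^ 2 * ‖(inner ℂ b c : ℂ)‖ ^ 2 ≤ 1 * 1 :=
            mul_le_mul hr2.le hx1 hx zero_le_one
          linarith
        have k2 : r ^ 2 * (‖b‖ ^ 2 + ‖c‖ ^ 2) ≤ r ^ 2 * (1 + ‖(inner ℂ b c : ℂ)‖ ^ 2) :=
          mul_le_mul_of_nonneg_left hbc hr2p.le
        calc (r * ‖b‖) ^ 2 + (r * ‖c‖) ^ 2 = r ^ 2 * (‖b‖ ^ 2 + ‖c‖ ^ 2) := by ring
          _ ≤ r ^ 2 * (1 + ‖(inner ℂ b c : ℂ)‖ ^ 2) := k2
          _ = 1 + (r ^ 2 * ‖(inner ℂ b c : ℂ)‖) ^ 2 -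
              (1 - r ^ 2) * (1 - r ^ 2 * ‖(inner ℂ b c : ℂ)‖ ^ 2) := by ring
          _ ≤ 1 + (r ^ 2 * ‖(inner ℂ b c : ℂ)‖) ^ 2 := by linarith)
    have eA : ∀ v : E n, (inner ℂ (((r : ℝ) : ℂ) • v) (A (((r : ℝ) : ℂ) • v)) : ℂ).re = r ^ 2 * qA A v := by
      intro v
      rw [map_smul, inner_smul_left, inner_smul_right, Complex.conj_ofReal, ← mul_assoc,
        ← Complex.ofReal_mul, Complex.re_ofReal_mul]
      unfold qA
      ring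
    have eP : (inner ℂ (((r : ℝ) : ℂ) • c) (P2 h (((r : ℝ) : ℂ) • b)) : ℂ) =
        ((r ^ 3 : ℝ) : ℂ) * inner ℂ c (P2 h b) := by
      rw [P2_smul, inner_smul_left, inner_smul_right, Complex.conj_ofReal]
      push_cast
      ring
    have hr3p : 0 < r ^ 3 := by positivity
    rw [eA, eA, eP, norm_mul, Complex.norm_real, Real.norm_eq_abs, abs_of_pos hr3p] at k
    have k3 : r ^ 2 * (r * w) ≤ r ^ 2 * q := by
      calc r ^ 2 * (r * w) = r ^ 3 * w := by ring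
        _ ≤ r ^ 2 * qA A b + r ^ 2 * qA A c := k
        _ = r ^ 2 * q := by rw [hq]; ring
    exact le_of_mul_le_mul_left k3 hr2p
  have ht : Tendsto (fun r : ℝ => r * w) (𝓝[<] 1) (𝓝 (1 * w)) := by
    apply Tendsto.mono_left _ nhdsWithin_le_nhds
    apply Continuous.tendsto
    fun_prop
  have h2 := le_of_tendsto ht (b := q) (by
    have h3 : Ioo (0 : ℝ) 1 ∈ 𝓝[<] (1 : ℝ) := Ioo_mem_nhdsLT (by norm_num)
    filter_upwards [h3] with r hr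
    exact hstep r hr.1 hr.2)
  rw [one_mul] at h2
  exact h2

end Pool.Agent.helper64.QF
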